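import Mathlib

set_option autoImplicit false

/-!
The counting argument: average number of vertices of the two-dimensional faces of a simple
six-dimensional polytope (helper721).
-/

namespace Pool.Agent.W721.RA

open Finset
open Classical

variable {ι : Type}

lemma choose_six (d u : ℕ) (h : d + u = 6) : 6 ≤ d.choose 2 + u.choose 2 := by
  have hd : d ≤ 6 := by omega
  have hu : u = 6 - d := by omega
  subst hu
  interval_cases d <;> decide

/-- number of two-element subsets of the sets of directions in which the values go down -/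
lemma pairs_le (P : Finset (Finset ι)) (hc : ∀ T ∈ P, T.card = 6) (D : Finset ι → Finset ι)
    (hD : ∀ T ∈ P, D T ⊆ T)
    (hinj : ∀ T ∈ P, ∀ T' ∈ P, T ≠ T' → ∀ A B : Finset ι, A ⊆ D T → B ⊆ D T' → A.card = 2 →
      B.card = 2 → T \ A = T' \ B → False) :
    ∑ T ∈ P, (D T).card.choose 2 ≤ (P.biUnion fun T => T.powersetCard 4).card := by
  have h1 : ∑ T ∈ P, (D T).card.choose 2 = (P.sigma fun T => (D T).powersetCard 2).card := by
    rw [card_sigma]
    exact sum_congr rfl fun T _ => (card_powersetCard _ _).symm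
  rw [h1]
  refine card_le_card_of_injOn (fun x : (_ : Finset ι) × Finset ι => x.1 \ x.2) ?_ ?_
  · rintro ⟨T, A⟩ hx
    simp only [coe_sigma, Set.mem_sigma_iff, mem_coe, mem_powersetCard] at hx
    obtain ⟨hT, hA, hA2⟩ := hx
    simp only [mem_coe, mem_biUnion, mem_powersetCard]
    refine ⟨T, hT, sdiff_subset, ?_⟩
    rw [card_sdiff_of_subset (hA.trans (hD T hT)), hc T hT, hA2]
  · rintro ⟨T, A⟩ hx ⟨T', A'⟩ hx' heq
    simp only [coe_sigma, Set.mem_sigma_iff, mem_coe, mem_powersetCard] at hx hx' heq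
    obtain ⟨hT, hA, hA2⟩ := hx
    obtain ⟨hT', hA', hA2'⟩ := hx'
    by_cases hTT : T = T'
    · subst hTT
      congr 1
      have h2 : T \ (T \ A) = A := by
        exact Finset.sdiff_sdiff_eq_self (hA.trans (hD T hT))
      have h3 : T \ (T \ A') = A' := by
        exact Finset.sdiff_sdiff_eq_self (hA'.trans (hD T hT))
      rw [← h2, heq, h3]
    · exact (hinj T hT T' hT' hTT A A' hA hA' hA2 hA2' heq).elim

/-- the counting contradiction -/
theorem count (P : Finset (Finset ι)) (hne : P.Nonempty) (hc : ∀ T ∈ P, T.card = 6)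
    (nb : Finset ι → ι → Finset ι) (φ : Finset ι → ℝ)
    (hnb : ∀ T ∈ P, ∀ i ∈ T, nb T i ∈ P ∧ nb T i ≠ T)
    (hφ : ∀ T ∈ P, ∀ T' ∈ P, T ≠ T' → φ T ≠ φ T')
    (hdown : ∀ T ∈ P, ∀ T' ∈ P, ∀ i ∈ T, ∀ j ∈ T, i ≠ j → φ (nb T i) < φ T → φ (nb T j) < φ T →
      (T.erase i).erase j ⊆ T' → T ≠ T' → φ T' < φ T)
    (hup : ∀ T ∈ P, ∀ T' ∈ P, ∀ i ∈ T, ∀ j ∈ T, i ≠ j → φ T < φ (nb T i) → φ T < φ (nb T j) →
      (T.erase i).erase j ⊆ T' → T ≠ T' → φ T < φ T')
    (hfive : ∀ T ∈ P, ∀ S ⊆ T, S.card = 4 → 5 ≤ (P.filter fun T' => S ⊆ T').card) : False := by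
  set F : Finset (Finset ι) := P.biUnion fun T => T.powersetCard 4 with hF
  -- incidences
  have hinc : 5 * F.card ≤ 15 * P.card := by
    have h1 : ∑ S ∈ F, (bipartiteAbove (fun S T : Finset ι => S ⊆ T) P S).card =
        ∑ T ∈ P, (bipartiteBelow (fun S T : Finset ι => S ⊆ T) F T).card :=
      sum_card_bipartiteAbove_eq_sum_card_bipartiteBelow _
    have h2 : ∑ S ∈ F, 5 ≤ ∑ S ∈ F, (bipartiteAbove (fun S T : Finset ι => S ⊆ T) P S).card := by
      apply sum_le_sum
      intro S hS
      rw [hF, mem_biUnion] at hS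
      obtain ⟨T, hT, hST⟩ := hS
      rw [mem_powersetCard] at hST
      exact hfive T hT S hST.1 hST.2
    have h3 : ∑ T ∈ P, (bipartiteBelow (fun S T : Finset ι => S ⊆ T) F T).card ≤ ∑ T ∈ P, 15 := by
      apply sum_le_sum
      intro T hT
      have h4 : bipartiteBelow (fun S T : Finset ι => S ⊆ T) F T ⊆ T.powersetCard 4 := by
        intro S hS
        rw [mem_bipartiteBelow] at hS
        obtain ⟨hS1, hS2⟩ := hS
        rw [hF, mem_biUnion] at hS1
        obtain ⟨T', hT', hST⟩ := hS1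
        rw [mem_powersetCard] at hST ⊢
        exact ⟨hS2, hST.2⟩
      have h5 := card_le_card h4
      rw [card_powersetCard, hc T hT] at h5
      exact h5
    rw [sum_const, smul_eq_mul] at h2 h3
    omega
  -- directions
  set dn : Finset ι → Finset ι := fun T => T.filter fun i => φ (nb T i) < φ T with hdn
  set up : Finset ι → Finset ι := fun T => T.filter fun i => φ T < φ (nb T i) with hup'
  have hdu : ∀ T ∈ P, (dn T).card + (up T).card = 6 := by
    intro T hT
    rw [← hc T hT]
    have h1 : up T = T.filter fun i => ¬ φ (nb T i) < φ T := by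
      apply filter_congr
      intro i hi
      have h2 := hφ T hT (nb T i) (hnb T hT i hi).1 (hnb T hT i hi).2.symm
      constructor
      · intro h; exact not_lt.2 h.le
      · intro h; exact lt_of_le_of_ne (not_lt.1 h) h2
    rw [h1]
    exact card_filter_add_card_filter_not _
  have hpair : ∀ (T A : Finset ι), A ⊆ T → A.card = 2 → ∃ i j, i ∈ A ∧ j ∈ A ∧ i ≠ j ∧
      T \ A = (T.erase i).erase j := by
    intro T A hA hA2
    obtain ⟨i, j, hij, rfl⟩ := card_eq_two.1 hA2
    refine ⟨i, j, by simp, by simp, hij, ?_⟩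
    ext k
    simp only [mem_sdiff, mem_insert, mem_singleton, mem_erase]
    tauto
  have h1 : ∑ T ∈ P, (dn T).card.choose 2 ≤ F.card := by
    apply pairs_le P hc dn (fun T _ => filter_subset _ _)
    intro T hT T' hT' hTT A B hA hB hA2 hB2 heq
    obtain ⟨i, j, hi, hj, hij, he⟩ := hpair T A (hA.trans (filter_subset _ _)) hA2
    obtain ⟨i', j', hi', hj', hij', he'⟩ := hpair T' B (hB.trans (filter_subset _ _)) hB2
    have mi := mem_filter.1 (hA hi)
    have mj := mem_filter.1 (hA hj)
    have mi' := mem_filter.1 (hB hi')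
    have mj' := mem_filter.1 (hB hj')
    have k1 := hdown T hT T' hT' i mi.1 j mj.1 hij mi.2 mj.2
      (by rw [← he, heq]; exact sdiff_subset) hTT
    have k2 := hdown T' hT' T hT i' mi'.1 j' mj'.1 hij' mi'.2 mj'.2
      (by rw [← he', ← heq]; exact sdiff_subset) (Ne.symm hTT)
    linarith
  have h2 : ∑ T ∈ P, (up T).card.choose 2 ≤ F.card := by
    apply pairs_le P hc up (fun T _ => filter_subset _ _)
    intro T hT T' hT' hTT A B hA hB hA2 hB2 heq
    obtain ⟨i, j, hi, hj, hij, he⟩ := hpair T A (hA.trans (filter_subset _ _)) hA2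
    obtain ⟨i', j', hi', hj', hij', he'⟩ := hpair T' B (hB.trans (filter_subset _ _)) hB2
    have mi := mem_filter.1 (hA hi)
    have mj := mem_filter.1 (hA hj)
    have mi' := mem_filter.1 (hB hi')
    have mj' := mem_filter.1 (hB hj')
    have k1 := hup T hT T' hT' i mi.1 j mj.1 hij mi.2 mj.2
      (by rw [← he, heq]; exact sdiff_subset) hTT
    have k2 := hup T' hT' T hT i' mi'.1 j' mj'.1 hij' mi'.2 mj'.2
      (by rw [← he', ← heq]; exact sdiff_subset) (Ne.symm hTT)
    linarith
  -- the lowest vertex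
  obtain ⟨T0, hT0, hmin⟩ := exists_min_image P φ hne
  have hd0 : (dn T0).card = 0 := by
    rw [card_eq_zero, hdn]
    apply filter_eq_empty_iff.2
    intro i hi
    exact not_lt.2 (hmin _ (hnb T0 hT0 i hi).1)
  have hu0 : (up T0).card = 6 := by
    have := hdu T0 hT0
    omega
  have h3 : ∑ T ∈ P, 6 < ∑ T ∈ P, ((dn T).card.choose 2 + (up T).card.choose 2) := by
    apply sum_lt_sum
    · intro T hT
      exact choose_six _ _ (hdu T hT)
    · refine ⟨T0, hT0, ?_⟩
      rw [hd0, hu0]
      decide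
  rw [sum_add_distrib, sum_const, smul_eq_mul] at h3
  omega

end Pool.Agent.W721.RA
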