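import Pool.Agent.W721.RA.Clique
import Pool.Agent.W721.RA.Count

set_option autoImplicit false

/-!
There is no bounded right-angled polytope in hyperbolic 6-space (helper721).
-/

namespace Pool.Agent.W721.RA

open Pool.Agent.W575.Hyp6 Pool.Agent.W438.RA
open Classical

variable {ι : Type}

section

variable {e : ι → V} (he : RightAngled e)
  (hg : ∀ i j, i ≠ j → B (e i) (e j) = 0 ∨ B (e i) (e j) ≤ -1)

include he hg

/-- sides that are adjacent to different edges at a vertex of a two-dimensional face do not meet -/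
theorem no_four {S : Finset ι} {a b c d : ι} (hT : Cl e (insert a (insert b S)))
    (hc : (insert a (insert b S)).card = 6)
    (hcT : c ∉ insert a (insert b S)) (hdT : d ∉ insert a (insert b S))
    (hca : B (e c) (e a) = 0) (hcS : ∀ k ∈ S, B (e c) (e k) = 0)
    (hdb : B (e d) (e b) = 0) : B (e c) (e d) < 0 := by
  obtain ⟨x, hx⟩ := exists_vx he hg hT
  rw [expandB he hg hT hc hx]
  have h1 : ∑ i ∈ insert a (insert b S), B (e c) (e i) * B (e d) (e i) = 0 := by
    apply Finset.sum_eq_zero
    intro i hi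
    rw [Finset.mem_insert, Finset.mem_insert] at hi
    rcases hi with rfl | rfl | hi
    · rw [hca, zero_mul]
    · rw [hdb, mul_zero]
    · rw [hcS i hi, zero_mul]
  rw [h1, add_zero]
  have h2 : B (e c) x < 0 := by rw [B_comm]; exact hx.ins c hcT
  have h3 : B (e d) x < 0 := by rw [B_comm]; exact hx.ins d hdT
  have := mul_pos_of_neg_of_neg h2 h3
  linarith

end

section

variable [Fintype ι] {e : ι → V} (he : RightAngled e)
  (hg : ∀ i j, i ≠ j → B (e i) (e j) = 0 ∨ B (e i) (e j) ≤ -1)
  (hb : ∃ R : ℝ, ∀ x ∈ poly e, x.1 0 ≤ R)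

include he hg hb

/-- every two-dimensional face has at least five vertices -/
theorem five {T : Finset ι} (hT : Cl e T) (hTc : T.card = 6) {S : Finset ι} (hST : S ⊆ T)
    (hSc : S.card = 4) (P : Finset (Finset ι)) (hP : ∀ T, T ∈ P ↔ Cl e T ∧ T.card = 6) :
    5 ≤ (P.filter fun T' => S ⊆ T').card := by
  obtain ⟨a, b, hab, hTS⟩ : ∃ a b, a ≠ b ∧ T \ S = {a, b} := by
    have h1 : (T \ S).card = 2 := by rw [Finset.card_sdiff_of_subset hST]; omega
    obtain ⟨a, b, h, h2⟩ := Finset.card_eq_two.1 h1
    exact ⟨a, b, h, h2⟩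
  have haS : a ∉ S := by
    have : a ∈ T \ S := by rw [hTS]; simp
    exact (Finset.mem_sdiff.1 this).2
  have hbS : b ∉ S := by
    have : b ∈ T \ S := by rw [hTS]; simp
    exact (Finset.mem_sdiff.1 this).2
  have hTe : T = insert a (insert b S) := by
    have h1 := Finset.sdiff_union_of_subset hST
    rw [← h1, hTS]
    ext k
    simp only [Finset.mem_union, Finset.mem_insert, Finset.mem_singleton]
    tauto
  subst hTe
  -- erasing
  have hE1 : (insert a (insert b S)).erase b = insert a S := by
    ext k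
    simp only [Finset.mem_erase, Finset.mem_insert]
    constructor
    · rintro ⟨h1, h2 | h2 | h2⟩
      · exact Or.inl h2
      · exact absurd h2 h1
      · exact Or.inr h2
    · rintro (h | h)
      · exact ⟨h ▸ hab, Or.inl h⟩
      · exact ⟨fun h1 => hbS (h1 ▸ h), Or.inr (Or.inr h)⟩
  have hE2 : (insert a (insert b S)).erase a = insert b S := by
    apply Finset.erase_insert
    rw [Finset.mem_insert]
    push Not
    exact ⟨hab, haS⟩
  -- first neighbours
  obtain ⟨c, hcT, hc⟩ := other_end he hg hb hT (i := b) (by simp)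
  obtain ⟨d, hdT, hd⟩ := other_end he hg hb hT (i := a) (by simp)
  rw [hE1] at hc
  rw [hE2] at hd
  have hcT' := hcT
  have hdT' := hdT
  simp only [Finset.mem_insert, not_or] at hcT' hdT'
  obtain ⟨hca, hcb, hcS⟩ := hcT'
  obtain ⟨hda, hdb, hdS⟩ := hdT'
  have hcaB : B (e c) (e a) = 0 := hc c (by simp) a (by simp) hca
  have hcSB : ∀ k ∈ S, B (e c) (e k) = 0 := fun k hk =>
    hc c (by simp) k (by simp [hk]) (fun h => hcS (h ▸ hk))
  have hdbB : B (e d) (e b) = 0 := hd d (by simp) b (by simp) hdb
  have hdSB : ∀ k ∈ S, B (e d) (e k) = 0 := fun k hk =>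
    hd d (by simp) k (by simp [hk]) (fun h => hdS (h ▸ hk))
  have hcd : B (e c) (e d) < 0 := no_four he hg hT hTc hcT hdT hcaB hcSB hdbB
  have hcd' : c ≠ d := by
    intro h
    rw [h, he.unit] at hcd
    linarith
  -- `c` is not adjacent to `b`, `d` is not adjacent to `a`
  have hcb' : B (e c) (e b) ≠ 0 := by
    intro h
    have := no_four he hg hT hTc hcT hcT hcaB hcSB h
    rw [he.unit] at this
    linarith
  have hda' : B (e d) (e a) ≠ 0 := by
    intro h
    have := no_four he hg hT hTc hdT hdT h hdSB hdbB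
    rw [he.unit] at this
    linarith
  -- second neighbours
  obtain ⟨x, hxT, hx⟩ := other_end he hg hb hc (i := a) (by simp)
  obtain ⟨y, hyT, hy⟩ := other_end he hg hb hd (i := b) (by simp)
  have hE3 : (insert c (insert a S)).erase a = insert c S := by
    ext k
    simp only [Finset.mem_erase, Finset.mem_insert]
    constructor
    · rintro ⟨h1, h2 | h2 | h2⟩
      · exact Or.inl h2
      · exact absurd h2 h1
      · exact Or.inr h2
    · rintro (h | h)
      · exact ⟨h ▸ hca, Or.inl h⟩
      · exact ⟨fun h1 => haS (h1 ▸ h), Or.inr (Or.inr h)⟩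
  have hE4 : (insert d (insert b S)).erase b = insert d S := by
    ext k
    simp only [Finset.mem_erase, Finset.mem_insert]
    constructor
    · rintro ⟨h1, h2 | h2 | h2⟩
      · exact Or.inl h2
      · exact absurd h2 h1
      · exact Or.inr h2
    · rintro (h | h)
      · exact ⟨h ▸ hdb, Or.inl h⟩
      · exact ⟨fun h1 => hbS (h1 ▸ h), Or.inr (Or.inr h)⟩
  rw [hE3] at hx
  rw [hE4] at hy
  simp only [Finset.mem_insert, not_or] at hxT hyT
  obtain ⟨hxc, hxa, hxS⟩ := hxT
  obtain ⟨hyd, hyb, hyS⟩ := hyT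
  have hcx : B (e c) (e x) = 0 := hx c (by simp) x (by simp) (Ne.symm hxc)
  have hdy : B (e d) (e y) = 0 := hy d (by simp) y (by simp) (Ne.symm hyd)
  have hxb : x ≠ b := fun h => hcb' (h ▸ hcx)
  have hya : y ≠ a := fun h => hda' (h ▸ hdy)
  have hxd : x ≠ d := fun h => hcd.ne (h ▸ hcx)
  have hyc : y ≠ c := by
    intro h
    rw [h, B_comm] at hdy
    exact hcd.ne hdy
  -- cards
  have hcard : ∀ u v : ι, u ≠ v → u ∉ S → v ∉ S → (insert u (insert v S)).card = 6 := by
    intro u v huv hu hv
    rw [Finset.card_insert_of_notMem, Finset.card_insert_of_notMem hv, hSc]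
    rw [Finset.mem_insert]
    push Not
    exact ⟨huv, hu⟩
  have hmem : ∀ u v : ι, u ≠ v → u ∉ S → v ∉ S → Cl e (insert u (insert v S)) →
      insert u (insert v S) ∈ P.filter fun T' => S ⊆ T' := by
    intro u v huv hu hv hcl
    rw [Finset.mem_filter, hP]
    exact ⟨⟨hcl, hcard u v huv hu hv⟩, fun k hk => by simp [hk]⟩
  have h1 := hmem a b hab haS hbS hT
  have h2 := hmem c a hca hcS haS hc
  have h3 := hmem d b hdb hdS hbS hd
  have h4 := hmem x c hxc hxS hcS hx
  have h5 := hmem y d hyd hyS hdS hy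
  -- five different sets
  have hne : ∀ (A A' : Finset ι) (k : ι), k ∈ A → k ∉ A' → A ≠ A' := by
    intro A A' k h h' heq
    exact h' (heq ▸ h)
  have e12 : insert a (insert b S) ≠ insert c (insert a S) :=
    (hne _ _ c (by simp) (by simp [hca, hcb, hcS])).symm
  have e13 : insert a (insert b S) ≠ insert d (insert b S) :=
    (hne _ _ d (by simp) (by simp [hda, hdb, hdS])).symm
  have e14 : insert a (insert b S) ≠ insert x (insert c S) :=
    (hne _ _ c (by simp) (by simp [hca, hcb, hcS])).symm
  have e15 : insert a (insert b S) ≠ insert y (insert d S) :=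
    (hne _ _ d (by simp) (by simp [hda, hdb, hdS])).symm
  have e23 : insert c (insert a S) ≠ insert d (insert b S) :=
    hne _ _ c (by simp) (by simp [hcd', hcb, hcS])
  have e24 : insert c (insert a S) ≠ insert x (insert c S) :=
    hne _ _ a (by simp) (by simp [Ne.symm hxa, Ne.symm hca, haS])
  have e25 : insert c (insert a S) ≠ insert y (insert d S) :=
    hne _ _ c (by simp) (by simp [Ne.symm hyc, hcd', hcS])
  have e34 : insert d (insert b S) ≠ insert x (insert c S) :=
    hne _ _ d (by simp) (by simp [Ne.symm hxd, Ne.symm hcd', hdS])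
  have e35 : insert d (insert b S) ≠ insert y (insert d S) :=
    hne _ _ b (by simp) (by simp [Ne.symm hyb, Ne.symm hdb, hbS])
  have e45 : insert x (insert c S) ≠ insert y (insert d S) :=
    hne _ _ c (by simp) (by simp [Ne.symm hyc, hcd', hcS])
  have hsub : ({insert a (insert b S), insert c (insert a S), insert d (insert b S),
      insert x (insert c S), insert y (insert d S)} : Finset (Finset ι)) ⊆
      P.filter fun T' => S ⊆ T' := by
    intro A hA
    simp only [Finset.mem_insert, Finset.mem_singleton] at hA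
    rcases hA with rfl | rfl | rfl | rfl | rfl
    · exact h1
    · exact h2
    · exact h3
    · exact h4
    · exact h5
  refine le_trans (le_of_eq ?_) (Finset.card_le_card hsub)
  rw [Finset.card_insert_of_notMem, Finset.card_insert_of_notMem, Finset.card_insert_of_notMem,
    Finset.card_insert_of_notMem, Finset.card_singleton]
  · rw [Finset.mem_singleton]; exact e45
  · simp only [Finset.mem_insert, Finset.mem_singleton, not_or]; exact ⟨e34, e35⟩
  · simp only [Finset.mem_insert, Finset.mem_singleton, not_or]; exact ⟨e23, e24, e25⟩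
  · simp only [Finset.mem_insert, Finset.mem_singleton, not_or]; exact ⟨e12, e13, e14, e15⟩

end

/-- **there is no bounded right-angled polytope in hyperbolic 6-space** -/
theorem main (hgram : S_gram) : S_nc := by
  intro ι _ e he hb
  have hg := hgram ι e he
  set P : Finset (Finset ι) := (Finset.univ : Finset ι).powerset.filter
    fun T => Cl e T ∧ T.card = 6 with hPdef
  have hP : ∀ T, T ∈ P ↔ Cl e T ∧ T.card = 6 := by
    intro T
    rw [hPdef, Finset.mem_filter]
    simp
  obtain ⟨T0, hT0, hT0c⟩ := exists_vertex he hg hb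
  have hne : P.Nonempty := ⟨T0, (hP T0).2 ⟨hT0, hT0c⟩⟩
  -- the vertices
  have hex : ∀ T : Finset ι, ∃ x : V, T ∈ P → Vx e T x := by
    intro T
    by_cases h : T ∈ P
    · obtain ⟨x, hx⟩ := exists_vx he hg ((hP T).1 h).1
      exact ⟨x, fun _ => hx⟩
    · exact ⟨0, fun h' => absurd h' h⟩
  choose x hx using hex
  obtain ⟨X0, hX0⟩ := he.interior
  have hneg : ∀ T ∈ P, B (x T) X0.1 < 0 := by
    intro T hT
    exact B_neg_of_future _ _ (hx T hT).fut (by rw [(hx T hT).norm]; norm_num) X0.2.2
      (by rw [X0.2.1]; norm_num)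
  obtain ⟨y, hy⟩ : ∃ y : Finset ι → V, ∀ T, y T = (-(B (x T) X0.1))⁻¹ • x T := ⟨_, fun T => rfl⟩
  have hyX : ∀ T ∈ P, B (y T) X0.1 = -1 := by
    intro T hT
    have := (hneg T hT).ne
    rw [hy, B_smul_left, inv_neg, neg_mul, inv_mul_cancel₀ this]
  have hyon : ∀ T ∈ P, ∀ i ∈ T, B (y T) (e i) = 0 := by
    intro T hT i hi
    rw [hy, B_smul_left, (hx T hT).on i hi, mul_zero]
  have hyin : ∀ T ∈ P, ∀ i, i ∉ T → B (y T) (e i) < 0 := by
    intro T hT i hi
    rw [hy, B_smul_left]
    exact mul_neg_of_pos_of_neg (inv_pos.2 (by linarith [hneg T hT])) ((hx T hT).ins i hi)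
  have hyle : ∀ T ∈ P, ∀ i, B (y T) (e i) ≤ 0 := by
    intro T hT i
    by_cases hi : i ∈ T
    · exact (hyon T hT i hi).le
    · exact (hyin T hT i hi).le
  have hyne : ∀ T ∈ P, ∀ T' ∈ P, T ≠ T' → y T - y T' ≠ 0 := by
    intro T hT T' hT' hne' h0
    apply hne'
    have h1 : y T = y T' := sub_eq_zero.1 h0
    ext i
    constructor
    · intro hi
      by_contra hi'
      have h2 := hyin T' hT' i hi'
      rw [← h1, hyon T hT i hi] at h2
      exact lt_irrefl _ h2
    · intro hi
      by_contra hi'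
      have h2 := hyin T hT i hi'
      rw [h1, hyon T' hT' i hi] at h2
      exact lt_irrefl _ h2
  -- a functional in general position
  obtain ⟨L, hL⟩ := Module.exists_dual_forall_apply_ne_zero (K := ℝ)
    (ι := {q : Finset ι × Finset ι // q.1 ∈ P ∧ q.2 ∈ P ∧ q.1 ≠ q.2})
    (fun q => y q.1.1 - y q.1.2) (fun q => hyne _ q.2.1 _ q.2.2.1 q.2.2.2)
  -- the other ends of the edges
  have hnbex : ∀ (T : Finset ι) (i : ι), ∃ T', T ∈ P → i ∈ T →
      T' ∈ P ∧ i ∉ T' ∧ T.erase i ⊆ T' := by
    intro T i
    by_cases h : T ∈ P ∧ i ∈ T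
    · obtain ⟨j, hj, hcl⟩ := other_end he hg hb ((hP T).1 h.1).1 h.2
      refine ⟨insert j (T.erase i), fun _ _ => ⟨?_, ?_, Finset.subset_insert _ _⟩⟩
      · rw [hP]
        refine ⟨hcl, ?_⟩
        rw [Finset.card_insert_of_notMem (fun h' => hj (Finset.mem_of_mem_erase h')),
          Finset.card_erase_of_mem h.2, ((hP T).1 h.1).2]
      · rw [Finset.mem_insert]
        push Not
        exact ⟨fun h' => hj (h' ▸ h.2), Finset.notMem_erase _ _⟩
    · exact ⟨∅, fun h1 h2 => absurd ⟨h1, h2⟩ h⟩
  choose nb hnb using hnbex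
  -- the position of a vertex of a two-dimensional face
  have key : ∀ T ∈ P, ∀ T' ∈ P, ∀ i ∈ T, ∀ j ∈ T, i ≠ j → (T.erase i).erase j ⊆ T' → T ≠ T' →
      ∃ b c : ℝ, 0 ≤ b ∧ 0 ≤ c ∧ 0 < b + c ∧
        y T' = (1 - b - c) • y T + b • y (nb T i) + c • y (nb T j) := by
    intro T hT T' hT' i hi j hj hij hsub hTT
    obtain ⟨n1, n2, n3⟩ := hnb T i hT hi
    obtain ⟨m1, m2, m3⟩ := hnb T j hT hj
    have hjn : j ∈ nb T i := n3 (Finset.mem_erase.2 ⟨hij.symm, hj⟩)
    have him : i ∈ nb T j := m3 (Finset.mem_erase.2 ⟨hij, hi⟩)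
    have hbi := hyin _ n1 i n2
    have hbj := hyin _ m1 j m2
    set b : ℝ := B (y T') (e i) / B (y (nb T i)) (e i) with hb'
    set c : ℝ := B (y T') (e j) / B (y (nb T j)) (e j) with hc'
    have hb0 : 0 ≤ b := div_nonneg_of_nonpos (hyle T' hT' i) hbi.le
    have hc0 : 0 ≤ c := div_nonneg_of_nonpos (hyle T' hT' j) hbj.le
    refine ⟨b, c, hb0, hc0, ?_, ?_⟩
    · by_contra hcon
      rw [not_lt] at hcon
      have hbz : b = 0 := by linarith
      have hcz : c = 0 := by linarith
      have h1 : B (y T') (e i) = 0 := by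
        rw [hb', div_eq_zero_iff] at hbz
        exact hbz.resolve_right hbi.ne
      have h2 : B (y T') (e j) = 0 := by
        rw [hc', div_eq_zero_iff] at hcz
        exact hcz.resolve_right hbj.ne
      have hiT' : i ∈ T' := by
        by_contra h; exact (hyin T' hT' i h).ne h1
      have hjT' : j ∈ T' := by
        by_contra h; exact (hyin T' hT' j h).ne h2
      apply hTT
      apply Finset.eq_of_subset_of_card_le
      · intro k hk
        by_cases hki : k = i
        · exact hki ▸ hiT'
        · by_cases hkj : k = j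
          · exact hkj ▸ hjT'
          · exact hsub (Finset.mem_erase.2 ⟨hkj, Finset.mem_erase.2 ⟨hki, hk⟩⟩)
      · rw [((hP T').1 hT').2, ((hP T).1 hT).2]
    · set W : V := y T' - b • y (nb T i) - c • y (nb T j) with hW
      have hWe : ∀ k, B W (e k) = B (y T') (e k) - b * B (y (nb T i)) (e k) -
          c * B (y (nb T j)) (e k) := by
        intro k
        rw [hW, B_sub_left, B_sub_left, B_smul_left, B_smul_left]
      have hW0 : ∀ k ∈ T, B W (e k) = 0 := by
        intro k hk
        rw [hWe]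
        by_cases hki : k = i
        · subst hki
          rw [hyon _ m1 k him, hb', div_mul_cancel₀ _ hbi.ne]
          ring
        · by_cases hkj : k = j
          · subst hkj
            rw [hyon _ n1 k hjn, hc', div_mul_cancel₀ _ hbj.ne]
            ring
          · rw [hyon _ n1 k (n3 (Finset.mem_erase.2 ⟨hki, hk⟩)),
              hyon _ m1 k (m3 (Finset.mem_erase.2 ⟨hkj, hk⟩)),
              hyon T' hT' k (hsub (Finset.mem_erase.2 ⟨hkj, Finset.mem_erase.2 ⟨hki, hk⟩⟩))]
            ring
      have h1 := expand he hg ((hP T).1 hT).1 ((hP T).1 hT).2 (hx T hT) W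
      rw [Finset.sum_eq_zero (fun k hk => by rw [hW0 k hk, zero_smul]), add_zero] at h1
      -- `W` is a multiple of `y T`
      have h2 : W = ((B W (x T)) * (B (x T) X0.1)) • y T := by
        conv_lhs => rw [h1]
        rw [hy, smul_smul]
        congr 1
        have := (hneg T hT).ne
        rw [inv_neg, mul_neg, mul_assoc, mul_inv_cancel₀ this, mul_one]
      have h3 : B W X0.1 = -(1 - b - c) := by
        rw [hW, B_sub_left, B_sub_left, B_smul_left, B_smul_left, hyX T' hT', hyX _ n1, hyX _ m1]
        ring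
      have h4 : B W (x T) * B (x T) X0.1 = 1 - b - c := by
        have h5 : B W X0.1 = (B W (x T) * B (x T) X0.1) * B (y T) X0.1 := by
          conv_lhs => rw [h2]
          rw [B_smul_left]
        rw [hyX T hT, h3] at h5
        linarith
      rw [h4] at h2
      have h6 : y T' = W + b • y (nb T i) + c • y (nb T j) := by rw [hW]; abel
      rw [h6, h2]
  have hLne : ∀ T ∈ P, ∀ T' ∈ P, T ≠ T' → L (y T) ≠ L (y T') := by
    intro T hT T' hT' hne' h
    apply hL ⟨(T, T'), hT, hT', hne'⟩
    simp only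
    rw [map_sub, h, sub_self]
  refine count P hne (fun T hT => ((hP T).1 hT).2) nb (fun T => L (y T)) ?_ hLne ?_ ?_ ?_
  · intro T hT i hi
    obtain ⟨n1, n2, n3⟩ := hnb T i hT hi
    exact ⟨n1, fun h => n2 (h.symm ▸ hi)⟩
  · intro T hT T' hT' i hi j hj hij h1 h2 hsub hTT
    obtain ⟨b, c, hb0, hc0, hbc, h3⟩ := key T hT T' hT' i hi j hj hij hsub hTT
    rw [h3, map_add, map_add, map_smul, map_smul, map_smul, smul_eq_mul, smul_eq_mul, smul_eq_mul]
    have h4 : 0 < b * (L (y T) - L (y (nb T i))) + c * (L (y T) - L (y (nb T j))) := by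
      rcases lt_or_eq_of_le hb0 with hb1 | hb1
      · have := mul_pos hb1 (sub_pos.2 h1)
        have := mul_nonneg hc0 (sub_pos.2 h2).le
        linarith
      · have hc1 : 0 < c := by linarith
        have := mul_pos hc1 (sub_pos.2 h2)
        have := mul_nonneg hb0 (sub_pos.2 h1).le
        linarith
    linarith
  · intro T hT T' hT' i hi j hj hij h1 h2 hsub hTT
    obtain ⟨b, c, hb0, hc0, hbc, h3⟩ := key T hT T' hT' i hi j hj hij hsub hTT
    rw [h3, map_add, map_add, map_smul, map_smul, map_smul, smul_eq_mul, smul_eq_mul, smul_eq_mul]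
    have h4 : 0 < b * (L (y (nb T i)) - L (y T)) + c * (L (y (nb T j)) - L (y T)) := by
      rcases lt_or_eq_of_le hb0 with hb1 | hb1
      · have := mul_pos hb1 (sub_pos.2 h1)
        have := mul_nonneg hc0 (sub_pos.2 h2).le
        linarith
      · have hc1 : 0 < c := by linarith
        have := mul_pos hc1 (sub_pos.2 h2)
        have := mul_nonneg hb0 (sub_pos.2 h1).le
        linarith
    linarith
  · intro T hT S hST hSc
    exact five he hg hb ((hP T).1 hT).1 ((hP T).1 hT).2 hST hSc P hP

end Pool.Agent.W721.RA
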