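import Pool.Agent.W721.RA.Lor

set_option autoImplicit false

/-!
Cliques of orthogonal sides and vertices (helper721).
-/

namespace Pool.Agent.W721.RA

open Pool.Agent.W575.Hyp6 Pool.Agent.W438.RA
open Classical

variable {ι : Type}

/-- sets of pairwise orthogonal sides -/
def Cl (e : ι → V) (T : Finset ι) : Prop := ∀ i ∈ T, ∀ j ∈ T, i ≠ j → B (e i) (e j) = 0

/-- a unit time-like vector orthogonal to the sides in `T` and strictly inside the others -/
structure Vx (e : ι → V) (T : Finset ι) (x : V) : Prop where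
  norm : B x x = -1
  fut : 0 < x 0
  on : ∀ i ∈ T, B x (e i) = 0
  ins : ∀ j, j ∉ T → B x (e j) < 0

section

variable {e : ι → V} (he : RightAngled e) (hg : ∀ i j, i ≠ j → B (e i) (e j) = 0 ∨ B (e i) (e j) ≤ -1)

include he hg

/-- the projection of an interior point -/
theorem exists_vx {T : Finset ι} (hT : Cl e T) : ∃ x, Vx e T x := by
  obtain ⟨X0, hX0⟩ := he.interior
  set X : V := X0.1 with hX
  have hXX : B X X = -1 := X0.2.1
  have hXf : 0 < X 0 := X0.2.2
  set Y : V := X - ∑ i ∈ T, B X (e i) • e i with hY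
  have hsum : ∀ z : V, B (∑ i ∈ T, B X (e i) • e i) z = ∑ i ∈ T, B X (e i) * B (e i) z := by
    intro z
    rw [B_sum_left]
    exact Finset.sum_congr rfl fun i _ => B_smul_left _ _ _
  have hYe : ∀ j, B Y (e j) = B X (e j) - ∑ i ∈ T, B X (e i) * B (e i) (e j) := by
    intro j
    rw [hY, B_sub_left, hsum]
  have hYon : ∀ j ∈ T, B Y (e j) = 0 := by
    intro j hj
    rw [hYe, Finset.sum_eq_single j]
    · rw [he.unit]; ring
    · intro i hi hij
      rw [hT i hi j hj hij, mul_zero]
    · intro h; exact absurd hj h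
  have hYin : ∀ j, j ∉ T → B Y (e j) < 0 := by
    intro j hj
    rw [hYe]
    have h1 : 0 ≤ ∑ i ∈ T, B X (e i) * B (e i) (e j) := by
      apply Finset.sum_nonneg
      intro i hi
      have hij : i ≠ j := fun h => hj (h ▸ hi)
      have h2 : B (e i) (e j) ≤ 0 := by
        rcases hg i j hij with h | h <;> linarith
      exact mul_nonneg_of_nonpos_of_nonpos (hX0 i).le h2
    linarith [hX0 j]
  have hXY : B X Y = -1 - ∑ i ∈ T, B X (e i) ^ 2 := by
    rw [B_comm, hY, B_sub_left, hsum, hXX]
    congr 1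
    apply Finset.sum_congr rfl
    intro i _
    rw [B_comm (e i) X]; ring
  have hsq : 0 ≤ ∑ i ∈ T, B X (e i) ^ 2 := Finset.sum_nonneg fun i _ => sq_nonneg _
  have hYY : B Y Y = -1 - ∑ i ∈ T, B X (e i) ^ 2 := by
    have h1 : B Y Y = B X Y - B (∑ i ∈ T, B X (e i) • e i) Y := by
      conv_lhs => rw [hY]
      rw [B_sub_left]
    rw [h1, hXY, hsum]
    have h2 : ∑ i ∈ T, B X (e i) * B (e i) Y = 0 := by
      apply Finset.sum_eq_zero
      intro i hi
      rw [B_comm (e i) Y, hYon i hi, mul_zero]
    rw [h2, sub_zero]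
  have hYneg : B Y Y < 0 := by rw [hYY]; linarith
  have hYf : 0 < Y 0 := future (by rw [hXX]; norm_num) hXf hYneg (by rw [hXY]; linarith)
  set r : ℝ := Real.sqrt (-B Y Y) with hr
  have hr0 : 0 < r := Real.sqrt_pos.2 (by linarith)
  have hr2 : r * r = -B Y Y := Real.mul_self_sqrt (by linarith)
  refine ⟨r⁻¹ • Y, ?_, ?_, ?_, ?_⟩
  · rw [B_smul_left, B_smul_right]
    have : B Y Y = -(r * r) := by linarith
    rw [this]
    field_simp
  · simp only [Pi.smul_apply, smul_eq_mul]
    positivity
  · intro i hi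
    rw [B_smul_left, hYon i hi, mul_zero]
  · intro j hj
    rw [B_smul_left]
    exact mul_neg_of_pos_of_neg (inv_pos.2 hr0) (hYin j hj)

/-- a vector orthogonal to a vertex and its six sides vanishes -/
theorem zero_of_orth {T : Finset ι} (hT : Cl e T) (hc : T.card = 6) {x : V} (hx : Vx e T x)
    {z : V} (hz : B z x = 0) (hze : ∀ i ∈ T, B z (e i) = 0) : z = 0 := by
  by_contra hz0
  have hzz : 0 < B z z := pos_of_orth (by rw [hx.norm]; norm_num) hz hz0
  -- eight orthogonal vectors
  set w : Option (Option T) → V := fun o => match o with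
    | none => z
    | some none => x
    | some (some i) => e i with hw
  have horth : Bl.IsOrthoᵢ w := by
    intro a b hab
    change B (w a) (w b) = 0
    rcases a with _ | _ | ⟨i, hi⟩ <;> rcases b with _ | _ | ⟨j, hj⟩ <;> simp only [hw]
    · exact absurd rfl hab
    · exact hz
    · exact hze j hj
    · rw [B_comm]; exact hz
    · exact absurd rfl hab
    · exact hx.on j hj
    · rw [B_comm]; exact hze i hi
    · rw [B_comm]; exact hx.on i hi
    · apply hT i hi j hj
      intro h
      apply hab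
      subst h
      rfl
  have hne : ∀ a, Bl (w a) (w a) ≠ 0 := by
    intro a
    change B (w a) (w a) ≠ 0
    rcases a with _ | _ | ⟨i, hi⟩ <;> simp only [hw]
    · exact hzz.ne'
    · rw [hx.norm]; norm_num
    · rw [he.unit]; norm_num
  have hli : LinearIndependent ℝ w := LinearMap.linearIndependent_of_isOrthoᵢ horth hne
  have h1 := hli.fintype_card_le_finrank
  rw [Fintype.card_option, Fintype.card_option, Fintype.card_coe, hc, Module.finrank_pi,
    Fintype.card_fin] at h1
  omega

/-- expansion with respect to a vertex -/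
theorem expand {T : Finset ι} (hT : Cl e T) (hc : T.card = 6) {x : V} (hx : Vx e T x) (y : V) :
    y = -(B y x) • x + ∑ i ∈ T, B y (e i) • e i := by
  have hS : ∀ z : V, B (∑ i ∈ T, B y (e i) • e i) z = ∑ i ∈ T, B y (e i) * B (e i) z := by
    intro z
    rw [B_sum_left]
    exact Finset.sum_congr rfl fun i _ => B_smul_left _ _ _
  have h := zero_of_orth he hg hT hc hx
    (z := y - (-(B y x) • x + ∑ i ∈ T, B y (e i) • e i)) (by
      rw [B_sub_left, B_add_left, B_smul_left, hx.norm, hS]
      have : ∑ i ∈ T, B y (e i) * B (e i) x = 0 := by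
        apply Finset.sum_eq_zero
        intro i hi
        rw [B_comm (e i) x, hx.on i hi, mul_zero]
      rw [this]; ring) (by
      intro j hj
      rw [B_sub_left, B_add_left, B_smul_left, hx.on j hj, hS, Finset.sum_eq_single j]
      · rw [he.unit]; ring
      · intro i hi hij
        rw [hT i hi j hj hij, mul_zero]
      · intro h; exact absurd hj h)
  exact sub_eq_zero.1 h

/-- the form in the coordinates of a vertex -/
theorem expandB {T : Finset ι} (hT : Cl e T) (hc : T.card = 6) {x : V} (hx : Vx e T x) (y z : V) :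
    B y z = -(B y x * B z x) + ∑ i ∈ T, B y (e i) * B z (e i) := by
  conv_lhs => rw [expand he hg hT hc hx y]
  rw [B_add_left, B_smul_left, B_sum_left]
  rw [B_comm x z]
  congr 1
  · ring
  · apply Finset.sum_congr rfl
    intro i _
    rw [B_smul_left, B_comm (e i) z]

end

/-- moving along a geodesic in the polytope until it leaves a side -/
theorem ext_side [Fintype ι] {e : ι → V} (he : RightAngled e)
    (hb : ∃ R : ℝ, ∀ x ∈ poly e, x.1 0 ≤ R)
    {S : Finset ι} (hS : Cl e S) {X v : V} (hX : B X X = -1) (hX0 : 0 < X 0)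
    (hXS : ∀ k ∈ S, B X (e k) = 0) (hXe : ∀ j, B X (e j) ≤ 0)
    (hv : B v v = 1) (hvX : B v X = 0) (hvS : ∀ k ∈ S, B v (e k) = 0)
    (hv2 : ∀ j, B X (e j) = 0 → B v (e j) ≤ 0) :
    ∃ j, j ∉ S ∧ 0 < B v (e j) ∧ B X (e j) < 0 ∧ Cl e (insert j S) := by
  obtain ⟨R, hR⟩ := hb
  have ht := time_lt hX hX0 hvX hv
  have hnorm : ∀ s : ℝ, B (X + s • v) (X + s • v) = -(1 - s ^ 2) := by
    intro s
    rw [B_add_left, B_add_right, B_add_right, B_smul_left, B_smul_right, B_smul_left,
      B_smul_right, hX, hv, hvX, B_comm X v, hvX]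
    ring
  have htime : ∀ s : ℝ, 0 ≤ s → s < 1 → X 0 - |v 0| ≤ (X + s • v) 0 := by
    intro s hs hs1
    simp only [Pi.add_apply, Pi.smul_apply, smul_eq_mul]
    have h1 : -|v 0| ≤ s * v 0 := by
      have h2 := neg_abs_le (v 0)
      have h3 := abs_nonneg (v 0)
      have h4 : |s * v 0| ≤ |v 0| := by
        rw [abs_mul, abs_of_nonneg hs]
        nlinarith
      linarith [neg_abs_le (s * v 0)]
    linarith
  -- points of the geodesic
  have hpt : ∀ s : ℝ, 0 ≤ s → s < 1 → ∃ x : H6, x.1 = (Real.sqrt (1 - s ^ 2))⁻¹ • (X + s • v) := by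
    intro s hs hs1
    have h1 : 0 < 1 - s ^ 2 := by nlinarith
    set r := Real.sqrt (1 - s ^ 2) with hr
    have hr0 : 0 < r := Real.sqrt_pos.2 h1
    have hr2 : r * r = 1 - s ^ 2 := Real.mul_self_sqrt h1.le
    refine ⟨⟨r⁻¹ • (X + s • v), ?_, ?_⟩, rfl⟩
    · rw [B_smul_left, B_smul_right, hnorm, ← hr2]
      field_simp
    · simp only [Pi.smul_apply, smul_eq_mul]
      have := htime s hs hs1
      apply mul_pos (inv_pos.2 hr0)
      linarith
  -- some side is crossed
  have hex : ∃ j, 0 < B v (e j) ∧ 0 < B X (e j) + B v (e j) := by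
    by_contra hcon
    push Not at hcon
    set δ : ℝ := X 0 - |v 0| with hδ
    have hδ0 : 0 < δ := by linarith
    have hXR : X 0 ≤ R := hR ⟨X, hX, hX0⟩ fun j => hXe j
    have hR0 : 0 < R + 1 := by linarith
    set η : ℝ := δ / (R + 1) with hη
    have hη0 : 0 < η := by positivity
    have hη1 : η < 1 := by
      rw [hη, div_lt_one hR0]
      have := abs_nonneg (v 0)
      linarith
    set s : ℝ := Real.sqrt (1 - η ^ 2) with hs
    have h1 : 0 < 1 - η ^ 2 := by nlinarith
    have hs0 : 0 < s := Real.sqrt_pos.2 h1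
    have hs2 : s ^ 2 = 1 - η ^ 2 := Real.sq_sqrt h1.le
    have hs1 : s < 1 := by
      by_contra h
      rw [not_lt] at h
      nlinarith
    obtain ⟨x, hx⟩ := hpt s hs0.le hs1
    have hsq : Real.sqrt (1 - s ^ 2) = η := by
      rw [hs2]
      have : 1 - (1 - η ^ 2) = η ^ 2 := by ring
      rw [this, Real.sqrt_sq hη0.le]
    rw [hsq] at hx
    have hxp : x ∈ poly e := by
      intro j
      rw [hx, B_smul_left, B_add_left, B_smul_left]
      apply mul_nonpos_of_nonneg_of_nonpos (inv_nonneg.2 hη0.le)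
      rcases le_or_gt (B v (e j)) 0 with h | h
      · have := mul_nonpos_of_nonneg_of_nonpos hs0.le h
        linarith [hXe j]
      · have h2 := hcon j h
        nlinarith
    have h2 := hR x hxp
    rw [hx] at h2
    simp only [Pi.smul_apply, smul_eq_mul] at h2
    have h3 := htime s hs0.le hs1
    have h4 : η⁻¹ * δ ≤ R := by
      refine le_trans ?_ h2
      exact mul_le_mul_of_nonneg_left h3 (inv_nonneg.2 hη0.le)
    have h5 : η⁻¹ * δ = R + 1 := by rw [hη]; field_simp
    linarith
  obtain ⟨j, hj1, hj2⟩ := hex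
  have hXj : B X (e j) < 0 := by
    rcases lt_or_eq_of_le (hXe j) with h | h
    · exact h
    · exact absurd (hv2 j h) (not_le.2 hj1)
  have hjS : j ∉ S := by
    intro h
    have := hvS j h
    linarith
  refine ⟨j, hjS, hj1, hXj, ?_⟩
  set s : ℝ := -B X (e j) / B v (e j) with hs
  have hs0 : 0 ≤ s := div_nonneg (by linarith) hj1.le
  have hs1 : s < 1 := by rw [hs, div_lt_one hj1]; linarith
  obtain ⟨x, hx⟩ := hpt s hs0 hs1
  have hxj : B x.1 (e j) = 0 := by
    rw [hx, B_smul_left, B_add_left, B_smul_left, hs]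
    field_simp
    ring
  have hxk : ∀ k ∈ S, B x.1 (e k) = 0 := by
    intro k hk
    rw [hx, B_smul_left, B_add_left, B_smul_left, hXS k hk, hvS k hk]
    ring
  have hjk : ∀ k ∈ S, B (e j) (e k) = 0 := by
    intro k hk
    exact he.right j k (fun h => hjS (h ▸ hk)) ⟨x, hxj, hxk k hk⟩
  intro a ha b hb hab
  rw [Finset.mem_insert] at ha hb
  rcases ha with rfl | ha <;> rcases hb with rfl | hb
  · exact absurd rfl hab
  · exact hjk b hb
  · rw [B_comm]; exact hjk a ha
  · exact hS a ha b hb hab

section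

variable [Fintype ι] {e : ι → V} (he : RightAngled e)
  (hg : ∀ i j, i ≠ j → B (e i) (e j) = 0 ∨ B (e i) (e j) ≤ -1)
  (hb : ∃ R : ℝ, ∀ x ∈ poly e, x.1 0 ≤ R)

include he hg hb

/-- the other endpoint of an edge -/
theorem other_end {T : Finset ι} (hT : Cl e T) {i : ι} (hi : i ∈ T) :
    ∃ j, j ∉ T ∧ Cl e (insert j (T.erase i)) := by
  obtain ⟨x, hx⟩ := exists_vx he hg hT
  obtain ⟨j, h1, h2, h3, h4⟩ := ext_side (S := T.erase i) (X := x) (v := -e i) he hb
    (fun a ha b hb' hab => hT a (Finset.mem_of_mem_erase ha) b (Finset.mem_of_mem_erase hb') hab)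
    hx.norm hx.fut (fun k hk => hx.on k (Finset.mem_of_mem_erase hk))
    (fun j => by
      by_cases hj : j ∈ T
      · exact (hx.on j hj).le
      · exact (hx.ins j hj).le)
    (by rw [B_neg_left, B_neg_right, he.unit]; ring)
    (by rw [B_neg_left, B_comm, hx.on i hi, neg_zero])
    (fun k hk => by
      rw [B_neg_left, hT i hi k (Finset.mem_of_mem_erase hk) (Finset.ne_of_mem_erase hk).symm,
        neg_zero])
    (fun j hj => by
      rw [B_neg_left]
      by_cases hji : j = i
      · rw [hji, he.unit]; norm_num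
      · have hjT : j ∈ T := by
          by_contra h
          exact (hx.ins j h).ne hj
        rw [hT i hi j hjT (fun h => hji h.symm), neg_zero])
  refine ⟨j, ?_, h4⟩
  intro hjT
  exact h3.ne (hx.on j hjT)

/-- a clique with fewer than six elements can be extended -/
theorem extend {S : Finset ι} (hS : Cl e S) (hc : S.card < 6) :
    ∃ j, j ∉ S ∧ Cl e (insert j S) := by
  obtain ⟨x, hx⟩ := exists_vx he hg hS
  -- a vector orthogonal to everything
  set f : V →ₗ[ℝ] (Option S → ℝ) := LinearMap.pi (fun o => match o with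
    | none => Bl x
    | some k => Bl (e k)) with hf
  have hlt : Module.finrank ℝ (Option S → ℝ) < Module.finrank ℝ V := by
    rw [Module.finrank_pi, Module.finrank_pi, Fintype.card_option, Fintype.card_coe,
      Fintype.card_fin]
    omega
  obtain ⟨w, hw, hw0⟩ := Submodule.exists_mem_ne_zero_of_ne_bot
    (LinearMap.ker_ne_bot_of_finrank_lt (f := f) hlt)
  rw [LinearMap.mem_ker] at hw
  have hwx : B w x = 0 := by
    have := congrFun hw none
    rw [B_comm]; exact this
  have hwS : ∀ k ∈ S, B w (e k) = 0 := by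
    intro k hk
    have := congrFun hw (some ⟨k, hk⟩)
    rw [B_comm]; exact this
  have hww : 0 < B w w := pos_of_orth (by rw [hx.norm]; norm_num) hwx hw0
  set r : ℝ := Real.sqrt (B w w) with hr
  have hr0 : 0 < r := Real.sqrt_pos.2 hww
  have hr2 : r * r = B w w := Real.mul_self_sqrt hww.le
  obtain ⟨j, h1, -, -, h4⟩ := ext_side (S := S) (X := x) (v := r⁻¹ • w) he hb hS
    hx.norm hx.fut hx.on
    (fun j => by
      by_cases hj : j ∈ S
      · exact (hx.on j hj).le
      · exact (hx.ins j hj).le)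
    (by rw [B_smul_left, B_smul_right, ← hr2]; field_simp)
    (by rw [B_smul_left, hwx, mul_zero])
    (fun k hk => by rw [B_smul_left, hwS k hk, mul_zero])
    (fun j hj => by
      have hjS : j ∈ S := by
        by_contra h
        exact (hx.ins j h).ne hj
      rw [B_smul_left, hwS j hjS, mul_zero])
  exact ⟨j, h1, h4⟩

/-- there is a vertex -/
theorem exists_vertex : ∃ T : Finset ι, Cl e T ∧ T.card = 6 := by
  have : ∀ n : ℕ, n ≤ 6 → ∃ T : Finset ι, Cl e T ∧ T.card = n := by
    intro n
    induction n with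
    | zero => intro _; exact ⟨∅, fun i hi => absurd hi (Finset.notMem_empty i), rfl⟩
    | succ n ih =>
      intro hn
      obtain ⟨T, hT, hTc⟩ := ih (by omega)
      obtain ⟨j, hj, hjT⟩ := extend he hg hb hT (by omega)
      exact ⟨insert j T, hjT, by rw [Finset.card_insert_of_notMem hj, hTc]⟩
  exact this 6 le_rfl

end

end Pool.Agent.W721.RA
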