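import Pool.Agent.W438.RA.Defs2

set_option autoImplicit false

/-!
Lorentz geometry in `ℝ⁷` for right-angled polytopes (helper721).
-/

namespace Pool.Agent.W721.RA

open Pool.Agent.W575.Hyp6 Pool.Agent.W438.RA

/-- vectors -/
abbrev V : Type := Fin 7 → ℝ

/-- the form as a bilinear map -/
def Bl : V →ₗ[ℝ] V →ₗ[ℝ] ℝ :=
  LinearMap.mk₂ ℝ (fun x y : V => B x y) (fun a b c => B_add_left a b c)
    (fun c x y => B_smul_left c x y) (fun a b c => B_add_right a b c)
    (fun c x y => B_smul_right c x y)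

lemma Bl_apply (x y : V) : Bl x y = B x y := rfl

lemma B_sum_right {ι : Type*} (s : Finset ι) (f : ι → V) (y : V) :
    B y (∑ i ∈ s, f i) = ∑ i ∈ s, B y (f i) := by
  rw [B_comm, B_sum_left]
  exact Finset.sum_congr rfl fun i _ => B_comm _ _

/-- vectors orthogonal to a time-like vector are space-like -/
lemma pos_of_orth {X v : V} (hX : B X X < 0) (hv : B v X = 0) (hv0 : v ≠ 0) : 0 < B v v := by
  have cs := Finset.sum_mul_sq_le_sq_mul_sq (Finset.univ : Finset (Fin 6))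
    (fun i => X i.succ) (fun i => v i.succ)
  simp only [Fin.sum_univ_six] at cs
  have e1 : (Fin.succ 0 : Fin 7) = 1 := rfl
  have e2 : (Fin.succ 1 : Fin 7) = 2 := rfl
  have e3 : (Fin.succ 2 : Fin 7) = 3 := rfl
  have e4 : (Fin.succ 3 : Fin 7) = 4 := rfl
  have e5 : (Fin.succ 4 : Fin 7) = 5 := rfl
  have e6 : (Fin.succ 5 : Fin 7) = 6 := rfl
  simp only [e1, e2, e3, e4, e5, e6] at cs
  simp only [B] at hX hv ⊢
  set P : ℝ := X 1 ^ 2 + X 2 ^ 2 + X 3 ^ 2 + X 4 ^ 2 + X 5 ^ 2 + X 6 ^ 2 with hP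
  set Q : ℝ := v 1 ^ 2 + v 2 ^ 2 + v 3 ^ 2 + v 4 ^ 2 + v 5 ^ 2 + v 6 ^ 2 with hQ
  have hP0 : 0 ≤ P := by positivity
  have hQ0 : 0 ≤ Q := by positivity
  have h1 : P < X 0 ^ 2 := by rw [hP]; linarith
  have h2 : X 1 * v 1 + X 2 * v 2 + X 3 * v 3 + X 4 * v 4 + X 5 * v 5 + X 6 * v 6 =
      X 0 * v 0 := by linarith
  rw [h2] at cs
  have hX0 : 0 < X 0 ^ 2 := lt_of_le_of_lt hP0 h1
  have goal' : v 0 ^ 2 < Q := by
    rcases eq_or_lt_of_le hQ0 with hQz | hQp
    · exfalso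
      apply hv0
      rw [← hQz, mul_zero] at cs
      have hx : (X 0 * v 0) ^ 2 = 0 := le_antisymm cs (sq_nonneg _)
      have hx' : X 0 * v 0 = 0 := by
        exact pow_eq_zero_iff (two_ne_zero) |>.1 hx
      have hX00 : X 0 ≠ 0 := by
        intro h; rw [h] at hX0; norm_num at hX0
      have hv00 : v 0 = 0 := (mul_eq_zero.1 hx').resolve_left hX00
      have hz : ∀ a : ℝ, a ^ 2 ≤ 0 → a = 0 := fun a ha =>
        pow_eq_zero_iff (two_ne_zero) |>.1 (le_antisymm ha (sq_nonneg a))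
      have k1 := sq_nonneg (v 1)
      have k2 := sq_nonneg (v 2)
      have k3 := sq_nonneg (v 3)
      have k4 := sq_nonneg (v 4)
      have k5 := sq_nonneg (v 5)
      have k6 := sq_nonneg (v 6)
      have z1 : v 1 = 0 := hz _ (by linarith)
      have z2 : v 2 = 0 := hz _ (by linarith)
      have z3 : v 3 = 0 := hz _ (by linarith)
      have z4 : v 4 = 0 := hz _ (by linarith)
      have z5 : v 5 = 0 := hz _ (by linarith)
      have z6 : v 6 = 0 := hz _ (by linarith)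
      funext i
      fin_cases i
      · exact hv00
      · exact z1
      · exact z2
      · exact z3
      · exact z4
      · exact z5
      · exact z6
    · have h3 : X 0 ^ 2 * v 0 ^ 2 < X 0 ^ 2 * Q := by
        calc X 0 ^ 2 * v 0 ^ 2 = (X 0 * v 0) ^ 2 := by ring
          _ ≤ P * Q := cs
          _ < X 0 ^ 2 * Q := mul_lt_mul_of_pos_right h1 hQp
      exact lt_of_mul_lt_mul_left h3 hX0.le
  have : v 0 ^ 2 = v 0 * v 0 := sq _
  rw [hQ] at goal'
  linarith

/-- a unit space-like vector orthogonal to a point has a smaller time coordinate -/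
lemma time_lt {X v : V} (hX : B X X = -1) (hX0 : 0 < X 0) (hv : B v X = 0) (hv1 : B v v = 1) :
    |v 0| < X 0 := by
  have cs := Finset.sum_mul_sq_le_sq_mul_sq (Finset.univ : Finset (Fin 6))
    (fun i => X i.succ) (fun i => v i.succ)
  simp only [Fin.sum_univ_six] at cs
  have e1 : (Fin.succ 0 : Fin 7) = 1 := rfl
  have e2 : (Fin.succ 1 : Fin 7) = 2 := rfl
  have e3 : (Fin.succ 2 : Fin 7) = 3 := rfl
  have e4 : (Fin.succ 3 : Fin 7) = 4 := rfl
  have e5 : (Fin.succ 4 : Fin 7) = 5 := rfl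
  have e6 : (Fin.succ 5 : Fin 7) = 6 := rfl
  simp only [e1, e2, e3, e4, e5, e6] at cs
  simp only [B] at hX hv hv1
  set P : ℝ := X 1 ^ 2 + X 2 ^ 2 + X 3 ^ 2 + X 4 ^ 2 + X 5 ^ 2 + X 6 ^ 2 with hP
  set Q : ℝ := v 1 ^ 2 + v 2 ^ 2 + v 3 ^ 2 + v 4 ^ 2 + v 5 ^ 2 + v 6 ^ 2 with hQ
  have h1 : P = X 0 ^ 2 - 1 := by rw [hP]; linarith
  have h1' : Q = v 0 ^ 2 + 1 := by rw [hQ]; linarith
  have h2 : X 1 * v 1 + X 2 * v 2 + X 3 * v 3 + X 4 * v 4 + X 5 * v 5 + X 6 * v 6 =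
      X 0 * v 0 := by linarith
  rw [h2, h1, h1'] at cs
  have h3 : v 0 ^ 2 < X 0 ^ 2 := by nlinarith
  exact abs_lt_of_sq_lt_sq h3 hX0.le

/-- a time-like vector on the future side of a point is in the future -/
lemma future {X Y : V} (hX : B X X < 0) (hX0 : 0 < X 0) (hY : B Y Y < 0) (hXY : B X Y < 0) :
    0 < Y 0 := by
  by_contra hcon
  rw [not_lt] at hcon
  have hY0 : Y 0 ≠ 0 := by
    intro h
    simp only [B] at hY
    rw [h] at hY
    have k1 := mul_self_nonneg (Y 1)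
    have k2 := mul_self_nonneg (Y 2)
    have k3 := mul_self_nonneg (Y 3)
    have k4 := mul_self_nonneg (Y 4)
    have k5 := mul_self_nonneg (Y 5)
    have k6 := mul_self_nonneg (Y 6)
    linarith
  have hlt : Y 0 < 0 := lt_of_le_of_ne hcon hY0
  have h1 := B_neg_of_future X (-Y) hX0 hX (by simpa using hlt)
    (by rw [B_neg_left, B_neg_right]; linarith)
  rw [B_neg_right] at h1
  linarith

end Pool.Agent.W721.RA
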